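import Pool.Agent.MP_fcd29e_an.H81.Spec

/-! Row RZ: Riesz representation after Hahn–Banach; weak compactness in `L²`. -/

set_option autoImplicit false

namespace Pool.Agent.MP_fcd29e_an.H28

open Pool.Agent.MP_fcd29e_an.H81 MeasureTheory Complex Set Filter Topology Metric
open scoped ContDiff ComplexConjugate ENNReal NNReal InnerProductSpace

noncomputable section

/-- A functional dominated by a map into a Hilbert space is an inner product. -/
theorem exists_riesz {D H : Type*} [AddCommGroup D] [Module ℂ D] [NormedAddCommGroup H]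
    [InnerProductSpace ℂ H] [CompleteSpace H] (Φ : D →ₗ[ℂ] H) (l : D →ₗ[ℂ] ℂ) (c : ℝ)
    (h : ∀ d, ‖l d‖ ≤ c * ‖Φ d‖) : ∃ y : H, ∀ d, l d = ⟪y, Φ d⟫_ℂ := by
  have hk : LinearMap.ker Φ ≤ LinearMap.ker l := by
    intro d hd
    have := h d
    rw [LinearMap.mem_ker.1 hd, norm_zero, mul_zero] at this
    exact norm_le_zero_iff.1 this
  let l0 : LinearMap.range Φ →ₗ[ℂ] ℂ :=
    (LinearMap.ker Φ).liftQ l hk ∘ₗ (LinearMap.quotKerEquivRange Φ).symm.toLinearMap
  have hl0 : ∀ d, l0 ⟨Φ d, ⟨d, rfl⟩⟩ = l d := by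
    intro d
    have : (LinearMap.quotKerEquivRange Φ).symm ⟨Φ d, ⟨d, rfl⟩⟩ = (LinearMap.ker Φ).mkQ d :=
      LinearMap.quotKerEquivRange_symm_apply_image Φ d _
    simp only [l0, LinearMap.comp_apply, LinearEquiv.coe_coe, this, Submodule.mkQ_apply,
      Submodule.liftQ_apply]
  have hb : ∀ x : LinearMap.range Φ, ‖l0 x‖ ≤ c * ‖x‖ := by
    rintro ⟨_, d, rfl⟩
    rw [hl0]
    exact h d
  obtain ⟨g, hg, -⟩ := exists_extension_norm_eq (LinearMap.range Φ) (l0.mkContinuous c hb)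
  refine ⟨(InnerProductSpace.toDual ℂ H).symm g, fun d => ?_⟩
  rw [InnerProductSpace.toDual_symm_apply]
  have := hg ⟨Φ d, ⟨d, rfl⟩⟩
  rw [LinearMap.mkContinuous_apply, hl0] at this
  exact this.symm

section L2
variable {X : Type*} [MeasurableSpace X] {μ : Measure X}

theorem memLp_conj {f : X → ℂ} (hf : MemLp f 2 μ) : MemLp (fun x => conj (f x)) 2 μ :=
  ⟨continuous_conj.comp_aestronglyMeasurable hf.1, by
    rw [eLpNorm_congr_norm_ae (g := f) (Eventually.of_forall fun x => by simp)]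
    exact hf.2⟩

theorem inner_toLp (y : Lp ℂ 2 μ) {f : X → ℂ} (hf : MemLp f 2 μ) :
    ⟪y, hf.toLp f⟫_ℂ = ∫ x, conj (y x) * f x ∂μ := by
  rw [L2.inner_def]
  refine integral_congr_ae ?_
  filter_upwards [hf.coeFn_toLp] with x hx
  rw [hx, RCLike.inner_apply, mul_comm]

theorem norm_toLp_sq {f : X → ℂ} (hf : MemLp f 2 μ) :
    ‖hf.toLp f‖ ^ 2 = ∫ x, ‖f x‖ ^ 2 ∂μ := by
  have h1 : (⟪hf.toLp f, hf.toLp f⟫_ℂ) = ((∫ x, ‖f x‖ ^ 2 ∂μ : ℝ) : ℂ) := by
    rw [inner_toLp, ← integral_complex_ofReal]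
    refine integral_congr_ae ?_
    filter_upwards [hf.coeFn_toLp] with x hx
    rw [hx, conj_mul', ofReal_pow]
  rw [inner_self_eq_norm_sq_to_K] at h1
  have h2 : ((‖hf.toLp f‖ ^ 2 : ℝ) : ℂ) = ((∫ x, ‖f x‖ ^ 2 ∂μ : ℝ) : ℂ) := by
    rw [← h1]; simp
  exact_mod_cast h2

end L2

theorem rz : StmtRZ := by
  refine ⟨?_, ?_⟩
  · intro X ι D _ _ _ _ μ T l C hC hT hl
    let Φ : D →ₗ[ℂ] PiLp 2 (fun _ : ι => Lp ℂ 2 μ) :=
      { toFun := fun d => WithLp.toLp 2 fun i => (hT i d).toLp (T i d)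
        map_add' := fun d e => by
          ext1 i
          simp only [PiLp.add_apply, ← MemLp.toLp_add]
          congr 1
          exact map_add _ _ _
        map_smul' := fun c d => by
          ext1 i
          simp only [PiLp.smul_apply, RingHom.id_apply, ← MemLp.toLp_const_smul]
          congr 1
          exact map_smul _ _ _ }
    have hn : ∀ d, ‖Φ d‖ ^ 2 = ∑ i, ∫ x, ‖T i d x‖ ^ 2 ∂μ := by
      intro d
      rw [PiLp.norm_sq_eq_of_L2]
      exact Finset.sum_congr rfl fun i _ => norm_toLp_sq (hT i d)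
    obtain ⟨y, hy⟩ := exists_riesz Φ l (Real.sqrt C) fun d => by
      have h1 := hl d
      rw [← hn] at h1
      have h2 := Real.sqrt_le_sqrt h1
      rwa [Real.sqrt_sq (norm_nonneg _), Real.sqrt_mul hC, Real.sqrt_sq (norm_nonneg _)] at h2
    refine ⟨fun i x => conj (y i x), fun i => ⟨?_, memLp_conj (Lp.memLp _)⟩, fun d => ?_⟩
    · exact continuous_conj.measurable.comp (Lp.stronglyMeasurable (y i)).measurable
    · rw [hy, PiLp.inner_apply]
      exact Finset.sum_congr rfl fun i _ => inner_toLp (y i) (hT i d)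
  · intro N μ _ w C hw
    have : Fact ((2 : ℝ≥0∞) ≠ ⊤) := ⟨by simp⟩
    have : IsSeparable μ := inferInstance
    have : SecondCountableTopology (Lp ℂ 2 μ) := Lp.SecondCountableTopology
    let u : ℕ → Lp ℂ 2 μ := fun i => (memLp_conj (hw i).1).toLp _
    have hu : ∀ i, ‖u i‖ ≤ Real.sqrt C := by
      intro i
      refine Real.le_sqrt_of_sq_le ?_
      rw [norm_toLp_sq]
      simpa using (hw i).2
    let F : ℕ → WeakDual ℂ (Lp ℂ 2 μ) := fun i =>
      StrongDual.toWeakDual (InnerProductSpace.toDual ℂ _ (u i))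
    have hF : ∀ i, F i ∈ WeakDual.toStrongDual ⁻¹' closedBall (0 : StrongDual ℂ (Lp ℂ 2 μ))
        (Real.sqrt C) := by
      intro i
      simpa [F] using hu i
    obtain ⟨G, -, s, hs, hG⟩ := WeakDual.isSeqCompact_closedBall ℂ (Lp ℂ 2 μ) 0 (Real.sqrt C) hF
    let y : Lp ℂ 2 μ := (InnerProductSpace.toDual ℂ _).symm (WeakDual.toStrongDual G)
    refine ⟨fun x => conj (y x), s, hs,
      continuous_conj.measurable.comp (Lp.stronglyMeasurable y).measurable,
      memLp_conj (Lp.memLp _), fun g hg => ?_⟩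
    have h1 := ((WeakDual.eval_continuous (hg.toLp g)).tendsto G).comp hG
    have h2 : G (hg.toLp g) = ∫ x, conj (y x) * g x ∂μ := by
      rw [← inner_toLp y hg, InnerProductSpace.toDual_symm_apply]
      rfl
    rw [h2] at h1
    refine h1.congr fun i => ?_
    have h3 : F (s i) (hg.toLp g) = ⟪u (s i), hg.toLp g⟫_ℂ := rfl
    simp only [Function.comp_apply]
    rw [h3, inner_toLp]
    refine integral_congr_ae ?_
    filter_upwards [(memLp_conj (hw (s i)).1).coeFn_toLp] with x hx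
    rw [hx, conj_conj]

end

end Pool.Agent.MP_fcd29e_an.H28
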