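import Pool.Agent.MP_fcd29e_an.H81.Spec

/-! Row TC: the cut kernel gains one derivative. -/

set_option autoImplicit false

namespace Pool.Agent.MP_fcd29e_an.H28

open Pool.Agent.MP_fcd29e_an.H81 MeasureTheory Complex Set Filter Topology Metric
open scoped ContDiff ComplexConjugate ENNReal NNReal

noncomputable section

variable {N : ℕ}

theorem ae_ne_zero (j : Fin N) : ∀ᵐ z : E N, z ≠ 0 := by
  have : Nonempty (Fin N) := ⟨j⟩
  have : Nontrivial (E N) := inferInstance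
  exact Measure.ae_ne volume 0

theorem restrict_E0 (j : Fin N) : (volume : Measure (E N)).restrict (E0 N) = volume :=
  Measure.restrict_eq_self_of_ae_mem (ae_ne_zero j)

theorem fderiv_ker {Φ : E N → ℂ} (hΦ : ContDiff ℝ ∞ Φ) {s : ℝ} (hs : s ≠ 0) (d : ℕ)
    (y x v : E N) :
    fderiv ℝ (fun x => Φ (s⁻¹ • (x - y)) / (s ^ d : ℝ)) x v =
      fderiv ℝ Φ (s⁻¹ • (x - y)) v / (s ^ (d + 1) : ℝ) := by
  have h1 : HasFDerivAt (fun x : E N => s⁻¹ • (x - y)) (s⁻¹ • ContinuousLinearMap.id ℝ (E N)) x :=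
    ((hasFDerivAt_id x).sub_const y).const_smul s⁻¹
  have h2 := (hΦ.differentiable (by simp) (s⁻¹ • (x - y))).hasFDerivAt.comp x h1
  have h3 := (h2.mul_const (((s ^ d : ℝ) : ℂ)⁻¹)).fderiv
  have h4 : (fun x => Φ (s⁻¹ • (x - y)) / (s ^ d : ℝ)) =
      fun x => (Φ ∘ fun x : E N => s⁻¹ • (x - y)) x * ((s ^ d : ℝ) : ℂ)⁻¹ := by
    funext x; simp [div_eq_mul_inv]
  rw [h4, h3]
  have hs' : (s : ℂ) ≠ 0 := by exact_mod_cast hs
  simp only [smul_apply, ContinuousLinearMap.comp_apply,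
    ContinuousLinearMap.id_apply, map_smul, smul_eq_mul, real_smul]
  push_cast
  field_simp
  ring

theorem sob_Tk (L : Lv0) (h : StmtTK0) (j : Fin N) {ρ : E N → ℝ} (hρ : Dom ρ) {A : ℝ}
    (hA : 0 < A) {k : ℕ} {G : E N → ℂ} (hG : WL ρ k G) (hD : DI G) (i : ℕ) :
    ∀ (d : ℕ) (Φ : E N → ℂ), Sym d Φ → 2 * N - 1 ≤ d → d + i ≤ 2 * N + k →
      Sob (E0 N) i (Tk ρ A d Φ G) := by
  have hN : 1 ≤ N := j.pos
  have hO : IsOpen (E0 N) := isOpen_compl_singleton
  have h0 : (0 : E N) ∉ E0 N := fun h => h rfl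
  have hOp := (L.c1 N ρ hρ).2.1
  induction i with
  | zero =>
    intro d Φ hΦ h1 h2
    exact (h N ρ hρ A hA k d Φ G hΦ h1 h2 hG hD).1
  | succ i ih =>
    intro d Φ hΦ h1 h2
    obtain ⟨hL, hI⟩ := h N ρ hρ A hA k d Φ G hΦ h1 (by omega) hG hD
    refine ⟨hL, fun v => ?_⟩
    have hΦ' := ((L.bm1 N hN).2.2.2 d Φ hΦ).1 v
    refine ⟨Tk ρ A (d + 1) (fun y => fderiv ℝ Φ y v) G, fun ψ hψ => ?_,
      ih _ _ hΦ' (by omega) (by omega)⟩
    have hI' := (h N ρ hρ A hA k (d + 1) _ G hΦ' (by omega) (by omega) hG hD).2 ψ hψ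
    have hψ' := ((L.t1 N _ hO h0).2.2.2.1 ψ hψ).2.1 v
    have hI1 := hI _ hψ'
    rw [restrict_E0 j]
    simp only [Tk, ← integral_mul_const]
    refine (integral_integral_swap hI1).trans (Eq.trans ?_
      (congrArg Neg.neg (integral_integral_swap hI')).symm)
    rw [← integral_neg]
    refine setIntegral_congr_fun hOp.measurableSet fun y hy => ?_
    have hs : ‖y‖ * ρ y / A ≠ 0 := (div_pos (mul_pos (norm_pos_iff.2 hy.1) hy.2) hA).ne'
    have hc : ContDiff ℝ ∞ fun x : E N =>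
        Φ ((‖y‖ * ρ y / A)⁻¹ • (x - y)) / ((‖y‖ * ρ y / A) ^ d : ℝ) :=
      (hΦ.1.comp ((contDiff_id.sub contDiff_const).const_smul _)).div_const _
    have h3 := ((L.t1 N _ hO h0).2.2.2.2.2.1 _ hc.contDiffOn).1 v ψ hψ
    rw [restrict_E0 j] at h3
    simp only [fderiv_ker hΦ.1 hs] at h3
    simp only [mul_right_comm _ (G y), integral_mul_const]
    rw [h3, neg_mul]

theorem tc (L : Lv0) (h : StmtTK0) : StmtTC := by
  intro N ρ hρ
  obtain ⟨-, hOp, -, hC, -, ⟨B, hB⟩, ⟨M, hM, hL⟩, -⟩ := L.c1 N ρ hρ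
  have hB0 : 0 ≤ B := (abs_nonneg _).trans (hB 0)
  have hA : 0 < 4 * B + 2 * M := by positivity
  refine ⟨4 * B + 2 * M, hA, fun j G => ?_⟩
  have hN : 1 ≤ N := j.pos
  obtain ⟨-, -, -, -, hS, hP⟩ := (L.bm1 N hN).2.1 j
  have hs : ∀ y ∈ Op ρ, 0 < ‖y‖ * ρ y / (4 * B + 2 * M) := fun y hy =>
    div_pos (mul_pos (norm_pos_iff.2 hy.1) hy.2) hA
  refine ⟨fun k hG hD => ⟨?_, fun x hx => ?_⟩, fun a b hG c hc x _ => ?_⟩
  · have : Tc ρ (4 * B + 2 * M) j G = Tk ρ (4 * B + 2 * M) (2 * N - 1) (Phi j 1) G := by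
      funext x
      refine setIntegral_congr_fun hOp.measurableSet fun y hy => ?_
      rw [((hP _ (hs y hy)).2.2 (x - y)).1]
    rw [this]
    exact sob_Tk L h j hρ hA hG hD _ _ _ hS le_rfl (by omega)
  · have h1 : Tc ρ (4 * B + 2 * M) j G x = ∫ y in Op ρ, Ek j (x - y) * G y := by
      refine setIntegral_congr_fun hOp.measurableSet fun y hy => ?_
      rw [(((hP _ (hs y hy)).2.2 (x - y)).2.1 ?_).1]
      have hy0 : 0 < ‖y‖ := norm_pos_iff.2 hy.1
      rw [← mul_div_assoc, div_le_iff₀ hA]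
      have hn := norm_nonneg (x - y)
      by_cases hxy : ‖x - y‖ ≤ ‖y‖ / 2
      · have h2 := hL y x hy.1 hxy
        have h3 : ρ y ≤ M * ‖x - y‖ / ‖y‖ := by
          have := neg_abs_le (ρ x - ρ y)
          have := hx.2
          linarith
        rw [le_div_iff₀ hy0] at h3
        nlinarith [mul_nonneg hB0 hn]
      · have h2 : ρ y ≤ B := (le_abs_self _).trans (hB y)
        have h3 : ‖y‖ * ρ y ≤ ‖y‖ * B := mul_le_mul_of_nonneg_left h2 hy0.le
        have h4 : ‖y‖ * B ≤ 2 * ‖x - y‖ * B :=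
          mul_le_mul_of_nonneg_right (by linarith [not_le.1 hxy]) hB0
        nlinarith [mul_nonneg hM.le hn]
    rw [h1]
    refine setIntegral_eq_integral_of_ae_compl_eq_zero ?_
    filter_upwards [hG.2.1, ae_ne_zero j] with y h2 h3 h4
    rw [h2 (not_lt.1 fun h5 => h4 ⟨h3, h5⟩), mul_zero]
  · have hT := ((L.t0.1 N c hc).1 ((Op ρ).indicator fun y =>
      Phi j (‖y‖ * ρ y / (4 * B + 2 * M)) (c • x - y) * G y))
    have hc' : ((‖c‖ ^ (2 * N) : ℝ) : ℂ) ≠ 0 := by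
      exact_mod_cast pow_ne_zero _ (norm_ne_zero_iff.2 hc)
    have hcc : conj c ≠ 0 := by simpa using hc
    rw [integral_indicator hOp.measurableSet, eq_inv_mul_iff_mul_eq₀ hc'] at hT
    have h2 : (fun y => ((Op ρ).indicator fun y =>
        Phi j (‖y‖ * ρ y / (4 * B + 2 * M)) (c • x - y) * G y) (c • y)) =
        (Op ρ).indicator fun y => (conj c / (‖c‖ ^ (2 * N) : ℝ) * (c ^ a * conj c ^ b)) *
          (Phi j (‖y‖ * ρ y / (4 * B + 2 * M)) (x - y) * G y) := by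
      funext y
      by_cases hy : y ∈ Op ρ
      · rw [indicator_of_mem hy, indicator_of_mem (hC.2 c hc y hy), hρ.inv c hc, norm_smul,
          mul_assoc ‖c‖, mul_div_assoc ‖c‖, ← smul_sub,
          ((hP _ (hs y hy)).2.2 (x - y)).2.2.2 c hc, hG c hc y hy.1]
        ring
      · rw [indicator_of_notMem hy, indicator_of_notMem]
        intro h3
        have := hC.2 c⁻¹ (inv_ne_zero hc) _ h3
        rw [inv_smul_smul₀ hc] at this
        exact hy this
    rw [h2, integral_indicator hOp.measurableSet, integral_const_mul] at hT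
    unfold Tc
    rw [← hT, zpow_add_one₀ hcc]
    field_simp

end

end Pool.Agent.MP_fcd29e_an.H28
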